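import Mathlib

/-!
# Pairs of large codegree in `K_4^3`-free 3-graphs

For a `K_4^3`-free 3-graph on the finite set `V` let `U a b` be the set of the vertices which do not
form an edge with `a`, `b`. Counting pairs of edges of the graph of the pairs with `|U a b| ≤ τ` and
paths in this graph we bound the number of these pairs, with the sharp constant.
-/

set_option autoImplicit false
set_option linter.unusedSectionVars false
open Finset

namespace Pool.Agent.Helper319.LC

variable {V : Type*} [Fintype V] [DecidableEq V]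

/-- `{a, b, c}` is an edge -/
def T (G : Finset (Finset V)) (a b c : V) : Prop := ({a, b, c} : Finset V) ∈ G

instance (G : Finset (Finset V)) (a b c : V) : Decidable (T G a b c) := by unfold T; infer_instance

theorem T_swap12 (G : Finset (Finset V)) (a b c : V) : T G a b c ↔ T G b a c := by
  unfold T
  rw [Finset.insert_comm]

theorem T_swap23 (G : Finset (Finset V)) (a b c : V) : T G a b c ↔ T G a c b := by
  unfold T
  rw [Finset.pair_comm b c]

/-- the vertices which do not form an edge with `a`, `b` -/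
def U (G : Finset (Finset V)) (a b : V) : Finset V := univ.filter (fun c => ¬ T G a b c)

theorem mem_U {G : Finset (Finset V)} {a b c : V} : c ∈ U G a b ↔ ¬ T G a b c := by
  simp [U]

theorem U_comm (G : Finset (Finset V)) (a b : V) : U G a b = U G b a := by
  ext c
  rw [mem_U, mem_U, T_swap12]

theorem T_ne {G : Finset (Finset V)} (h3 : ∀ e ∈ G, e.card = 3) {a b c : V} (h : T G a b c) :
    a ≠ b ∧ a ≠ c ∧ b ≠ c := by
  have h1 := h3 _ h
  refine ⟨?_, ?_, ?_⟩
  · rintro rfl
    have : ({a, a, c} : Finset V).card ≤ 2 := by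
      rw [Finset.insert_eq_of_mem (Finset.mem_insert_self a {c})]
      exact Finset.card_le_two
    omega
  · rintro rfl
    have : ({a, b, a} : Finset V).card ≤ 2 := by
      rw [Finset.insert_eq_of_mem (by simp)]
      exact Finset.card_le_two
    omega
  · rintro rfl
    have : ({a, b, b} : Finset V).card ≤ 2 := by
      rw [Finset.insert_eq_of_mem (show b ∈ ({b} : Finset V) by simp)]
      exact Finset.card_le_two
    omega

/-- no four vertices span all four triples -/
theorem no4 {G : Finset (Finset V)} (h3 : ∀ e ∈ G, e.card = 3)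
    (hF : ∀ S : Finset V, S.card = 4 → ∃ s ⊆ S, s.card = 3 ∧ s ∉ G) {a b c d : V}
    (h1 : T G a b c) (h2 : T G a b d) (h4 : T G a c d) (h5 : T G b c d) : False := by
  obtain ⟨hab, hac, hbc⟩ := T_ne h3 h1
  obtain ⟨-, had, hbd⟩ := T_ne h3 h2
  obtain ⟨-, -, hcd⟩ := T_ne h3 h4
  have hS : ({a, b, c, d} : Finset V).card = 4 := by
    rw [card_insert_of_notMem, card_insert_of_notMem, card_insert_of_notMem, card_singleton]
    · simpa using hcd
    · simp [hbc, hbd]
    · simp [hab, hac, had]
  obtain ⟨s, hs, hs3, hsG⟩ := hF _ hS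
  have h6 : (({a, b, c, d} : Finset V) \ s).card = 1 := by
    rw [card_sdiff_of_subset hs, hS, hs3]
  obtain ⟨x, hx⟩ := card_eq_one.1 h6
  have hse : s = ({a, b, c, d} : Finset V) \ {x} := by
    rw [← hx, Finset.sdiff_sdiff_eq_self hs]
  have hxm : x ∈ ({a, b, c, d} : Finset V) := by
    have : x ∈ ({a, b, c, d} : Finset V) \ s := by rw [hx]; simp
    exact (mem_sdiff.1 this).1
  simp only [mem_insert, mem_singleton] at hxm
  rcases hxm with rfl | rfl | rfl | rfl
  · apply hsG
    have : s = {b, c, d} := by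
      rw [hse]; ext y; simp only [mem_sdiff, mem_insert, mem_singleton]
      constructor
      · rintro ⟨h | h | h | h, h'⟩ <;> simp_all
      · rintro (h | h | h) <;> subst h <;> simp [Ne.symm hab, Ne.symm hac, Ne.symm had]
    rw [this]; exact h5
  · apply hsG
    have : s = {a, c, d} := by
      rw [hse]; ext y; simp only [mem_sdiff, mem_insert, mem_singleton]
      constructor
      · rintro ⟨h | h | h | h, h'⟩ <;> simp_all
      · rintro (h | h | h) <;> subst h <;> simp [hab, Ne.symm hbc, Ne.symm hbd]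
    rw [this]; exact h4
  · apply hsG
    have : s = {a, b, d} := by
      rw [hse]; ext y; simp only [mem_sdiff, mem_insert, mem_singleton]
      constructor
      · rintro ⟨h | h | h | h, h'⟩ <;> simp_all
      · rintro (h | h | h) <;> subst h <;> simp [hac, hbc, Ne.symm hcd]
    rw [this]; exact h2
  · apply hsG
    have : s = {a, b, c} := by
      rw [hse]; ext y; simp only [mem_sdiff, mem_insert, mem_singleton]
      constructor
      · rintro ⟨h | h | h | h, h'⟩ <;> simp_all
      · rintro (h | h | h) <;> subst h <;> simp [had, hbd, hcd]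
    rw [this]; exact h1

/-- the pairs of large codegree -/
def Adj (G : Finset (Finset V)) (τ : ℝ) (a b : V) : Prop := ((U G a b).card : ℝ) ≤ τ

noncomputable instance (G : Finset (Finset V)) (τ : ℝ) (a b : V) : Decidable (Adj G τ a b) := by
  unfold Adj; infer_instance

theorem Adj_comm (G : Finset (Finset V)) (τ : ℝ) (a b : V) : Adj G τ a b ↔ Adj G τ b a := by
  unfold Adj
  rw [U_comm]

/-- the ordered pairs of large codegree in `W` -/
noncomputable def EW (G : Finset (Finset V)) (τ : ℝ) (W : Finset V) : Finset (V × V) :=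
  (W ×ˢ W).filter (fun q => Adj G τ q.1 q.2)

section
variable {G : Finset (Finset V)} (h3 : ∀ e ∈ G, e.card = 3)
  (hF : ∀ S : Finset V, S.card = 4 → ∃ s ⊆ S, s.card = 3 ∧ s ∉ G)
include h3 hF

/-- for two pairs one vertex of one of them is not in an edge with the other one -/
theorem touch (a b c d : V) : c ∈ U G a b ∨ d ∈ U G a b ∨ a ∈ U G c d ∨ b ∈ U G c d := by
  by_contra h
  push Not at h
  simp only [mem_U, not_not] at h
  obtain ⟨h1, h2, h4, h5⟩ := h
  refine no4 h3 hF h1 h2 ?_ ?_
  · rw [T_swap23, T_swap12] at h4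
    exact h4
  · rw [T_swap23, T_swap12] at h5
    exact h5

/-- the number of the pairs in `W` is bounded by the maximum degree -/
theorem card_EW {τ Δ : ℝ} (hτ : 0 ≤ τ) (hΔ : 0 ≤ Δ) (W : Finset V)
    (hW : ∀ c ∈ W, ((W.filter (fun d => Adj G τ c d)).card : ℝ) ≤ Δ) :
    ((EW G τ W).card : ℝ) ≤ 4 * τ * Δ := by
  classical
  set E := EW G τ W with hE
  have hmem : ∀ q : V × V, q ∈ E ↔ q.1 ∈ W ∧ q.2 ∈ W ∧ Adj G τ q.1 q.2 := by
    intro q
    rw [hE, EW, mem_filter, mem_product, and_assoc]
  -- pairs meeting a set `A`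
  have hA1 : ∀ A : Finset V, ((E.filter (fun f => f.1 ∈ A)).card : ℝ) ≤ A.card * Δ := by
    intro A
    have h1 : E.filter (fun f => f.1 ∈ A) ⊆
        (A ∩ W).biUnion (fun c => (W.filter (fun d => Adj G τ c d)).image (fun d => (c, d))) := by
      intro f hf
      rw [mem_filter, hmem] at hf
      rw [mem_biUnion]
      refine ⟨f.1, mem_inter.2 ⟨hf.2, hf.1.1⟩, ?_⟩
      rw [mem_image]
      exact ⟨f.2, mem_filter.2 ⟨hf.1.2.1, hf.1.2.2⟩, rfl⟩
    calc ((E.filter (fun f => f.1 ∈ A)).card : ℝ)
        ≤ (((A ∩ W).biUnion (fun c => (W.filter (fun d => Adj G τ c d)).image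
            (fun d => (c, d)))).card : ℝ) := by exact_mod_cast card_le_card h1
      _ ≤ ((∑ c ∈ A ∩ W, ((W.filter (fun d => Adj G τ c d)).image (fun d => (c, d))).card : ℕ) : ℝ) := by
          exact_mod_cast card_biUnion_le
      _ ≤ ∑ c ∈ A ∩ W, Δ := by
          push_cast
          refine sum_le_sum fun c hc => ?_
          refine le_trans ?_ (hW c (mem_inter.1 hc).2)
          exact_mod_cast card_image_le
      _ ≤ A.card * Δ := by
          rw [sum_const, nsmul_eq_mul]
          refine mul_le_mul_of_nonneg_right ?_ hΔ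
          exact_mod_cast card_le_card inter_subset_left
  have hA2 : ∀ A : Finset V, ((E.filter (fun f => f.2 ∈ A)).card : ℝ) ≤ A.card * Δ := by
    intro A
    refine le_trans (le_of_eq ?_) (hA1 A)
    congr 1
    refine card_bij (fun f _ => (f.2, f.1)) ?_ ?_ ?_
    · intro f hf
      rw [mem_filter, hmem] at hf ⊢
      exact ⟨⟨hf.1.2.1, hf.1.1, (Adj_comm G τ _ _).1 hf.1.2.2⟩, hf.2⟩
    · rintro ⟨a, b⟩ _ ⟨c, d⟩ _ h
      simp only [Prod.mk.injEq] at h
      rw [h.1, h.2]
    · rintro ⟨a, b⟩ hf
      rw [mem_filter, hmem] at hf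
      refine ⟨(b, a), ?_, rfl⟩
      rw [mem_filter, hmem]
      exact ⟨⟨hf.1.2.1, hf.1.1, (Adj_comm G τ _ _).1 hf.1.2.2⟩, hf.2⟩
  have hone : ∀ e ∈ E, ∀ f ∈ E, (1 : ℝ) ≤
      ((if f.1 ∈ U G e.1 e.2 then 1 else 0) + (if f.2 ∈ U G e.1 e.2 then 1 else 0)) +
      ((if e.1 ∈ U G f.1 f.2 then 1 else 0) + (if e.2 ∈ U G f.1 f.2 then 1 else 0)) := by
    intro e _ f _
    have h := touch h3 hF e.1 e.2 f.1 f.2
    rcases h with h | h | h | h
    · rw [if_pos h]; split_ifs <;> norm_num
    · rw [if_pos h]; split_ifs <;> norm_num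
    · rw [if_pos h]; split_ifs <;> norm_num
    · rw [if_pos h]; split_ifs <;> norm_num
  have hsum : ∀ e ∈ E, ∑ f ∈ E, ((if f.1 ∈ U G e.1 e.2 then (1 : ℝ) else 0) +
      (if f.2 ∈ U G e.1 e.2 then 1 else 0)) ≤ 2 * τ * Δ := by
    intro e he
    rw [sum_add_distrib]
    have h1 : ∑ f ∈ E, (if f.1 ∈ U G e.1 e.2 then (1 : ℝ) else 0) =
        ((E.filter (fun f => f.1 ∈ U G e.1 e.2)).card : ℝ) := by
      rw [← sum_filter, sum_const, nsmul_eq_mul, mul_one]
    have h2 : ∑ f ∈ E, (if f.2 ∈ U G e.1 e.2 then (1 : ℝ) else 0) =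
        ((E.filter (fun f => f.2 ∈ U G e.1 e.2)).card : ℝ) := by
      rw [← sum_filter, sum_const, nsmul_eq_mul, mul_one]
    rw [h1, h2]
    have h5 : ((U G e.1 e.2).card : ℝ) ≤ τ := ((hmem e).1 he).2.2
    have h6 := hA1 (U G e.1 e.2)
    have h7 := hA2 (U G e.1 e.2)
    have h8 : ((U G e.1 e.2).card : ℝ) * Δ ≤ τ * Δ := mul_le_mul_of_nonneg_right h5 hΔ
    linarith
  have hkey : (E.card : ℝ) * E.card ≤ E.card * (4 * τ * Δ) := by
    calc (E.card : ℝ) * E.card = ∑ e ∈ E, ∑ f ∈ E, (1 : ℝ) := by
          simp [sum_const, nsmul_eq_mul]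
      _ ≤ ∑ e ∈ E, ∑ f ∈ E, (((if f.1 ∈ U G e.1 e.2 then (1 : ℝ) else 0) +
            (if f.2 ∈ U G e.1 e.2 then 1 else 0)) +
            ((if e.1 ∈ U G f.1 f.2 then 1 else 0) + (if e.2 ∈ U G f.1 f.2 then 1 else 0))) :=
          sum_le_sum fun e he => sum_le_sum fun f hf => hone e he f hf
      _ = (∑ e ∈ E, ∑ f ∈ E, ((if f.1 ∈ U G e.1 e.2 then (1 : ℝ) else 0) +
            (if f.2 ∈ U G e.1 e.2 then 1 else 0))) +
          ∑ f ∈ E, ∑ e ∈ E, ((if e.1 ∈ U G f.1 f.2 then (1 : ℝ) else 0) +
            (if e.2 ∈ U G f.1 f.2 then 1 else 0)) := by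
          rw [sum_congr rfl (fun e _ => sum_add_distrib), sum_add_distrib]
          congr 1
          exact sum_comm
      _ ≤ (∑ e ∈ E, 2 * τ * Δ) + ∑ f ∈ E, 2 * τ * Δ :=
          add_le_add (sum_le_sum hsum) (sum_le_sum hsum)
      _ = E.card * (4 * τ * Δ) := by
          rw [sum_const, nsmul_eq_mul]; ring
  rcases Nat.eq_zero_or_pos E.card with h0 | h0
  · rw [h0]
    push_cast
    positivity
  · have h1 : (0 : ℝ) < E.card := by exact_mod_cast h0
    exact le_of_mul_le_mul_left hkey h1

/-- paths of two pairs at a vertex of large degree which are edges -/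
theorem paths {τ : ℝ} (hτ : 0 < τ) (a : V)
    (ha : 4 * τ ≤ ((univ.filter (fun b => Adj G τ a b)).card : ℝ)) :
    ∑ b ∈ univ.filter (fun b => Adj G τ a b),
      ((univ.filter (fun c => Adj G τ b c ∧ T G a b c)).card : ℝ) ≤ 4 * τ ^ 2 := by
  classical
  set D := univ.filter (fun b => Adj G τ a b) with hD
  have hmem : ∀ b, b ∈ D ↔ Adj G τ a b := by intro b; simp [hD]
  set Q : V → Finset V := fun c => D.filter (fun b => Adj G τ b c ∧ T G a b c) with hQ
  set Z : V → Finset V := fun c => D.filter (fun z => T G a z c) with hZ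
  set C := univ.filter (fun c => (Q c).Nonempty) with hC
  have hQZ : ∀ c, (Q c).card ≤ (Z c).card := by
    intro c
    refine card_le_card fun b hb => ?_
    rw [hQ, mem_filter] at hb
    rw [hZ, mem_filter]
    exact ⟨hb.1, hb.2.2⟩
  have hZ2 : ∀ c ∈ C, ((Z c).card : ℝ) ≤ 2 * τ := by
    intro c hc
    rw [hC, mem_filter] at hc
    obtain ⟨b, hb⟩ := hc.2
    rw [hQ, mem_filter, hmem] at hb
    have h1 : Z c ⊆ U G a b ∪ U G b c := by
      intro z hz
      rw [hZ, mem_filter] at hz
      rw [mem_union, mem_U, mem_U]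
      by_contra h
      push Not at h
      refine no4 h3 hF (a := a) (b := b) (c := c) (d := z) hb.2.2 h.1 ?_ h.2
      rw [T_swap23]
      exact hz.2
    have h2 : (Z c).card ≤ (U G a b).card + (U G b c).card :=
      (card_le_card h1).trans (card_union_le _ _)
    have h4 : ((Z c).card : ℝ) ≤ (U G a b).card + (U G b c).card := by exact_mod_cast h2
    have h5 : ((U G a b).card : ℝ) ≤ τ := hb.1
    have h6 : ((U G b c).card : ℝ) ≤ τ := hb.2.1
    linarith
  have hDpos : (0 : ℝ) < D.card := by linarith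
  have hCcard : (C.card : ℝ) ≤ 2 * τ := by
    have h1 : (C.card : ℝ) * ((D.card : ℝ) / 2) ≤ D.card * τ := by
      calc (C.card : ℝ) * ((D.card : ℝ) / 2) = ∑ c ∈ C, ((D.card : ℝ) / 2) := by
            rw [sum_const, nsmul_eq_mul]
        _ ≤ ∑ c ∈ C, ((D.filter (fun z => ¬ T G a z c)).card : ℝ) := by
            refine sum_le_sum fun c hc => ?_
            have h2 : (Z c).card + (D.filter (fun z => ¬ T G a z c)).card = D.card :=
              card_filter_add_card_filter_not (s := D) (fun z => T G a z c)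
            have h4 : ((Z c).card : ℝ) + (D.filter (fun z => ¬ T G a z c)).card = D.card := by
              exact_mod_cast h2
            have h5 := hZ2 c hc
            linarith
        _ ≤ ∑ c, ((D.filter (fun z => ¬ T G a z c)).card : ℝ) :=
            sum_le_sum_of_subset_of_nonneg (subset_univ _) fun _ _ _ => Nat.cast_nonneg _
        _ = ∑ c, ∑ z ∈ D, (if ¬ T G a z c then (1 : ℝ) else 0) := by
            refine sum_congr rfl fun c _ => ?_
            rw [← sum_filter, sum_const, nsmul_eq_mul, mul_one]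
        _ = ∑ z ∈ D, ((U G a z).card : ℝ) := by
            rw [sum_comm]
            refine sum_congr rfl fun z _ => ?_
            rw [← sum_filter, sum_const, nsmul_eq_mul, mul_one]
            rfl
        _ ≤ ∑ z ∈ D, τ := sum_le_sum fun z hz => (hmem z).1 hz
        _ = D.card * τ := by rw [sum_const, nsmul_eq_mul]
    have h2 : (D.card : ℝ) * ((C.card : ℝ) / 2) ≤ D.card * τ := by linarith
    have h4 := le_of_mul_le_mul_left h2 hDpos
    linarith
  calc ∑ b ∈ D, ((univ.filter (fun c => Adj G τ b c ∧ T G a b c)).card : ℝ)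
      = ∑ b ∈ D, ∑ c, (if Adj G τ b c ∧ T G a b c then (1 : ℝ) else 0) := by
        refine sum_congr rfl fun b _ => ?_
        rw [← sum_filter, sum_const, nsmul_eq_mul, mul_one]
    _ = ∑ c, ((Q c).card : ℝ) := by
        rw [sum_comm]
        refine sum_congr rfl fun c _ => ?_
        rw [← sum_filter, sum_const, nsmul_eq_mul, mul_one]
    _ = ∑ c ∈ C, ((Q c).card : ℝ) := by
        symm
        refine sum_subset (subset_univ _) fun c _ hc => ?_
        rw [hC, mem_filter] at hc
        have : Q c = ∅ := by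
          by_contra h
          exact hc ⟨mem_univ _, nonempty_iff_ne_empty.2 h⟩
        rw [this]
        simp
    _ ≤ ∑ c ∈ C, 2 * τ := by
        refine sum_le_sum fun c hc => ?_
        refine le_trans ?_ (hZ2 c hc)
        exact_mod_cast hQZ c
    _ = C.card * (2 * τ) := by rw [sum_const, nsmul_eq_mul]
    _ ≤ 2 * τ * (2 * τ) := mul_le_mul_of_nonneg_right hCcard (by linarith)
    _ = 4 * τ ^ 2 := by ring

end

end Pool.Agent.Helper319.LC
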