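import Pool.Agent.Helper319.LargeCodeg

/-!
# Pairs of large codegree in `K_4^3`-free 3-graphs: the weighted count
-/

set_option autoImplicit false
set_option linter.unusedSectionVars false
open Finset Real

namespace Pool.Agent.Helper319.LC

variable {V : Type*} [Fintype V] [DecidableEq V]

theorem geom_tail (K J : ℕ) : ∑ j ∈ Ico K J, (j + 1 : ℝ) * exp (-(j : ℝ)) ≤ 6 * exp (-(K : ℝ) / 2) := by
  have hr0 : 0 < exp (-(1 / 2 : ℝ)) := exp_pos _
  have hr1 : exp (-(1 / 2 : ℝ)) ≤ 2 / 3 := by
    have h1 : (3 / 2 : ℝ) ≤ exp (1 / 2) := by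
      have := add_one_le_exp (1 / 2 : ℝ)
      linarith
    rw [exp_neg]
    rw [inv_le_comm₀ (exp_pos _) (by norm_num)]
    norm_num
    linarith
  have hpt : ∀ j : ℕ, (j + 1 : ℝ) * exp (-(j : ℝ)) ≤ 2 * exp (-(1 / 2 : ℝ)) ^ j := by
    intro j
    have h1 : (j : ℝ) / 2 + 1 ≤ exp ((j : ℝ) / 2) := add_one_le_exp _
    have h2 : exp (-(1 / 2 : ℝ)) ^ j = exp (-((j : ℝ) / 2)) := by
      rw [← exp_nat_mul]; congr 1; ring
    have h3 : exp (-(j : ℝ)) = exp (-((j : ℝ) / 2)) * exp (-((j : ℝ) / 2)) := by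
      rw [← exp_add]; congr 1; ring
    have h4 : exp ((j : ℝ) / 2) * exp (-((j : ℝ) / 2)) = 1 := by
      rw [← exp_add]; simp
    rw [h2, h3]
    have h5 : (j + 1 : ℝ) ≤ 2 * exp ((j : ℝ) / 2) := by
      have : (0 : ℝ) ≤ j := Nat.cast_nonneg j
      linarith
    calc (j + 1 : ℝ) * (exp (-((j : ℝ) / 2)) * exp (-((j : ℝ) / 2)))
        ≤ (2 * exp ((j : ℝ) / 2)) * (exp (-((j : ℝ) / 2)) * exp (-((j : ℝ) / 2))) :=
          mul_le_mul_of_nonneg_right h5 (by positivity)
      _ = 2 * (exp ((j : ℝ) / 2) * exp (-((j : ℝ) / 2))) * exp (-((j : ℝ) / 2)) := by ring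
      _ = 2 * exp (-((j : ℝ) / 2)) := by rw [h4]; ring
  have hg : ∀ m : ℕ, ∑ i ∈ range m, exp (-(1 / 2 : ℝ)) ^ i ≤ 3 := by
    intro m
    have hlt : exp (-(1 / 2 : ℝ)) < 1 := by linarith
    have h1 := geom_sum_eq (ne_of_lt hlt) m
    rw [h1]
    rw [div_le_iff_of_neg (by linarith)]
    have : 0 ≤ exp (-(1 / 2 : ℝ)) ^ m := by positivity
    linarith
  calc ∑ j ∈ Ico K J, (j + 1 : ℝ) * exp (-(j : ℝ)) ≤ ∑ j ∈ Ico K J, 2 * exp (-(1 / 2 : ℝ)) ^ j :=
        sum_le_sum fun j _ => hpt j
    _ = ∑ i ∈ range (J - K), 2 * exp (-(1 / 2 : ℝ)) ^ (K + i) := by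
        rw [sum_Ico_eq_sum_range]
    _ = 2 * exp (-(1 / 2 : ℝ)) ^ K * ∑ i ∈ range (J - K), exp (-(1 / 2 : ℝ)) ^ i := by
        rw [mul_sum]
        refine sum_congr rfl fun i _ => ?_
        rw [pow_add]; ring
    _ ≤ 2 * exp (-(1 / 2 : ℝ)) ^ K * 3 := mul_le_mul_of_nonneg_left (hg _) (by positivity)
    _ = 6 * exp (-(K : ℝ) / 2) := by
        have h2 : exp (-(1 / 2 : ℝ)) ^ K = exp (-(K : ℝ) / 2) := by
          rw [← exp_nat_mul]; congr 1; ring
        rw [h2]; ring

section
variable {G : Finset (Finset V)} (h3 : ∀ e ∈ G, e.card = 3)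
  (hF : ∀ S : Finset V, S.card = 4 → ∃ s ⊆ S, s.card = 3 ∧ s ∉ G)
include h3 hF

/-- the number of all ordered pairs of large codegree -/
theorem card_all {t : ℝ} (ht : 0 ≤ t) :
    ((EW G t univ).card : ℝ) ≤ 4 * t * Fintype.card V := by
  refine card_EW h3 hF ht (Nat.cast_nonneg _) univ fun c _ => ?_
  exact_mod_cast card_le_univ _

/-- the contribution of the pairs which are not of very large codegree -/
theorem tail_sum {p : ℝ} (hp : 0 < p) (hn : 0 < Fintype.card V) (K : ℕ) :
    ∑ q ∈ (univ : Finset (V × V)).filter (fun q => ¬ Adj G (K * Fintype.card V / p) q.1 q.2),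
      exp (-(p * (U G q.1 q.2).card / Fintype.card V)) ≤
      (Fintype.card V : ℝ) ^ 2 / p * (24 * exp (-(K : ℝ) / 2)) := by
  classical
  set n : ℝ := (Fintype.card V : ℝ) with hn'
  have hn0 : 0 < n := by rw [hn']; exact_mod_cast hn
  set J : ℕ := ⌈p⌉₊ + 1 with hJ
  have hpt : ∀ q ∈ (univ : Finset (V × V)).filter (fun q => ¬ Adj G (K * n / p) q.1 q.2),
      exp (-(p * (U G q.1 q.2).card / n)) ≤
      ∑ j ∈ Ico K J, (if Adj G ((j + 1) * n / p) q.1 q.2 then exp (-(j : ℝ)) else 0) := by
    intro q hq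
    rw [mem_filter] at hq
    have hq2 : K * n / p < ((U G q.1 q.2).card : ℝ) := not_le.1 hq.2
    set x : ℝ := p * (U G q.1 q.2).card / n with hx
    have hxK : (K : ℝ) < x := by
      rw [hx, lt_div_iff₀ hn0]
      rw [div_lt_iff₀ hp] at hq2
      linarith
    have hxp : x ≤ p := by
      rw [hx, div_le_iff₀ hn0]
      refine mul_le_mul_of_nonneg_left ?_ hp.le
      rw [hn']
      exact_mod_cast card_le_univ _
    have hc1 : K < ⌈x⌉₊ := Nat.lt_ceil.2 hxK
    have hc2 : ⌈x⌉₊ ≤ ⌈p⌉₊ := Nat.ceil_mono hxp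
    have hc3 : x ≤ ⌈x⌉₊ := Nat.le_ceil x
    obtain ⟨j, hj⟩ : ∃ j, ⌈x⌉₊ = j + 1 := ⟨⌈x⌉₊ - 1, by omega⟩
    have hjx : (j : ℝ) < x := by
      have : j < ⌈x⌉₊ := by omega
      exact Nat.lt_ceil.1 this
    have hjm : j ∈ Ico K J := by
      rw [mem_Ico]
      omega
    have hadj : Adj G ((j + 1) * n / p) q.1 q.2 := by
      have h1 : x ≤ (j : ℝ) + 1 := by
        rw [hj] at hc3
        exact_mod_cast hc3
      unfold Adj
      rw [le_div_iff₀ hp]
      rw [hx, div_le_iff₀ hn0] at h1
      linarith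
    have hterm : exp (-x) ≤ (if Adj G ((j + 1) * n / p) q.1 q.2 then exp (-(j : ℝ)) else 0) := by
      rw [if_pos hadj]
      exact exp_le_exp.2 (by linarith)
    refine hterm.trans ?_
    exact single_le_sum (f := fun j : ℕ => (if Adj G ((j + 1) * n / p) q.1 q.2 then exp (-(j : ℝ)) else 0))
      (fun i _ => by positivity) hjm
  calc ∑ q ∈ (univ : Finset (V × V)).filter (fun q => ¬ Adj G (K * n / p) q.1 q.2),
        exp (-(p * (U G q.1 q.2).card / n))
      ≤ ∑ q ∈ (univ : Finset (V × V)).filter (fun q => ¬ Adj G (K * n / p) q.1 q.2),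
        ∑ j ∈ Ico K J, (if Adj G ((j + 1) * n / p) q.1 q.2 then exp (-(j : ℝ)) else 0) :=
        sum_le_sum hpt
    _ ≤ ∑ q : V × V, ∑ j ∈ Ico K J,
        (if Adj G ((j + 1) * n / p) q.1 q.2 then exp (-(j : ℝ)) else 0) :=
        sum_le_sum_of_subset_of_nonneg (filter_subset _ _) fun _ _ _ =>
          sum_nonneg fun _ _ => by positivity
    _ = ∑ j ∈ Ico K J, ((EW G ((j + 1) * n / p) univ).card : ℝ) * exp (-(j : ℝ)) := by
        rw [sum_comm]
        refine sum_congr rfl fun j _ => ?_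
        rw [← sum_filter, sum_const, nsmul_eq_mul]
        rfl
    _ ≤ ∑ j ∈ Ico K J, (4 * ((j + 1) * n / p) * n) * exp (-(j : ℝ)) := by
        refine sum_le_sum fun j _ => mul_le_mul_of_nonneg_right ?_ (exp_pos _).le
        exact card_all h3 hF (by positivity)
    _ = (4 * n ^ 2 / p) * ∑ j ∈ Ico K J, (j + 1 : ℝ) * exp (-(j : ℝ)) := by
        rw [mul_sum]
        refine sum_congr rfl fun j _ => ?_
        ring
    _ ≤ (4 * n ^ 2 / p) * (6 * exp (-(K : ℝ) / 2)) :=
        mul_le_mul_of_nonneg_left (geom_tail K J) (by positivity)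
    _ = n ^ 2 / p * (24 * exp (-(K : ℝ) / 2)) := by ring

/-- the contribution of the pairs of very large codegree -/
theorem near_sum {p θ M : ℝ} (hp : 0 < p) (hθ : 0 < θ) (hM : 4 ≤ M) (hn : 0 < Fintype.card V) {K : ℕ}
    (hK : 1 ≤ K) :
    ∑ q ∈ (univ : Finset (V × V)).filter (fun q => Adj G (K * Fintype.card V / p) q.1 q.2),
      exp (-(p * (U G q.1 q.2).card / Fintype.card V)) ≤
      (Fintype.card V : ℝ) ^ 2 / p *
        (4 * M * K ^ 2 / p + 16 * K / M + 32 * K / (θ * M) + 2 * exp (-1 + θ * K)) := by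
  classical
  set n : ℝ := (Fintype.card V : ℝ) with hn'
  have hn0 : 0 < n := by rw [hn']; exact_mod_cast hn
  set τ : ℝ := K * n / p with hτ'
  have hK0 : (0 : ℝ) < K := by exact_mod_cast hK
  have hτ : 0 < τ := by rw [hτ']; positivity
  have hM0 : 0 < M := by linarith
  set f : V → V → ℝ := fun a b => exp (-(p * (U G a b).card / n)) with hf
  have hf1 : ∀ a b, f a b ≤ 1 := by
    intro a b
    rw [hf]
    refine exp_le_one_iff.2 ?_
    have : 0 ≤ p * (U G a b).card / n := by positivity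
    linarith
  have hf0 : ∀ a b, 0 ≤ f a b := fun a b => (exp_pos _).le
  have hfc : ∀ a b, f a b = f b a := by
    intro a b
    rw [hf]
    simp only
    rw [U_comm]
  set dg : V → ℕ := fun v => (univ.filter (fun b => Adj G τ v b)).card with hdg
  set B := univ.filter (fun v => M * τ ≤ (dg v : ℝ)) with hB
  set S := univ.filter (fun v => ¬ M * τ ≤ (dg v : ℝ)) with hS
  -- the number of vertices of large degree
  have hBcard : (B.card : ℝ) * M ≤ 4 * n := by
    have h1 : (B.card : ℝ) * (M * τ) ≤ 4 * τ * n := by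
      calc (B.card : ℝ) * (M * τ) = ∑ v ∈ B, M * τ := by rw [sum_const, nsmul_eq_mul]
        _ ≤ ∑ v ∈ B, (dg v : ℝ) := sum_le_sum fun v hv => by
            rw [hB, mem_filter] at hv
            exact hv.2
        _ ≤ ∑ v, (dg v : ℝ) := sum_le_sum_of_subset_of_nonneg (subset_univ _) fun _ _ _ =>
            Nat.cast_nonneg _
        _ = ((EW G τ univ).card : ℝ) := by
            rw [EW, ← Nat.cast_sum]
            congr 1
            rw [card_filter, sum_product]
            refine sum_congr rfl fun v _ => ?_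
            rw [hdg]
            simp only
            rw [card_filter]
        _ ≤ 4 * τ * n := card_all h3 hF hτ.le
    have h2 : τ * ((B.card : ℝ) * M) ≤ τ * (4 * n) := by linarith
    exact le_of_mul_le_mul_left h2 hτ
  have hBB : ((EW G τ B).card : ℝ) ≤ 4 * τ * B.card := by
    refine card_EW h3 hF hτ.le (Nat.cast_nonneg _) B fun c _ => ?_
    exact_mod_cast card_filter_le _ _
  have hSS : ((EW G τ S).card : ℝ) ≤ 4 * τ * (M * τ) := by
    refine card_EW h3 hF hτ.le (by positivity) S fun c hc => ?_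
    rw [hS, mem_filter] at hc
    have h1 : (dg c : ℝ) ≤ M * τ := (not_le.1 hc.2).le
    refine le_trans ?_ h1
    rw [hdg]
    exact_mod_cast card_le_card (filter_subset_filter _ (subset_univ _))
  -- bad pairs
  set bad : V → V → Prop := fun a b =>
    θ * τ < ((univ.filter (fun c => Adj G τ b c ∧ T G a b c)).card : ℝ) with hbad
  have hbadcount : ∀ a ∈ B, ((univ.filter (fun b => Adj G τ a b ∧ bad a b)).card : ℝ) ≤ 4 * τ / θ := by
    intro a ha
    rw [hB, mem_filter] at ha
    have h1 : 4 * τ ≤ ((univ.filter (fun b => Adj G τ a b)).card : ℝ) :=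
      (mul_le_mul_of_nonneg_right hM hτ.le).trans ha.2
    have h2 := paths h3 hF hτ a h1
    rw [le_div_iff₀ hθ]
    have h4 : ((univ.filter (fun b => Adj G τ a b ∧ bad a b)).card : ℝ) * (θ * τ) ≤ 4 * τ ^ 2 := by
      calc ((univ.filter (fun b => Adj G τ a b ∧ bad a b)).card : ℝ) * (θ * τ)
          = ∑ b ∈ univ.filter (fun b => Adj G τ a b ∧ bad a b), θ * τ := by
            rw [sum_const, nsmul_eq_mul]
        _ ≤ ∑ b ∈ univ.filter (fun b => Adj G τ a b ∧ bad a b),
            ((univ.filter (fun c => Adj G τ b c ∧ T G a b c)).card : ℝ) :=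
            sum_le_sum fun b hb => by
              rw [mem_filter] at hb
              exact hb.2.2.le
        _ ≤ ∑ b ∈ univ.filter (fun b => Adj G τ a b),
            ((univ.filter (fun c => Adj G τ b c ∧ T G a b c)).card : ℝ) := by
            refine sum_le_sum_of_subset_of_nonneg ?_ fun _ _ _ => Nat.cast_nonneg _
            intro b hb
            rw [mem_filter] at hb ⊢
            exact ⟨hb.1, hb.2.1⟩
        _ ≤ 4 * τ ^ 2 := h2
    have h5 : τ * (((univ.filter (fun b => Adj G τ a b ∧ bad a b)).card : ℝ) * θ) ≤ τ * (4 * τ) := by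
      nlinarith
    exact le_of_mul_le_mul_left h5 hτ
  -- the mixed pairs
  set R : ℝ := n / p * exp (-1 + θ * K) with hR
  have hmix : ∀ b, ∑ a ∈ B.filter (fun a => Adj G τ a b), f a b ≤
      ((B.filter (fun a => Adj G τ a b ∧ bad a b)).card : ℝ) + R := by
    intro b
    set y : ℝ := p * (dg b : ℝ) / n with hy
    have hgood : ∀ a, ¬ bad a b → f a b ≤ exp (-y + θ * K) := by
      intro a ha
      have h1 : ((univ.filter (fun c => Adj G τ b c ∧ T G a b c)).card : ℝ) ≤ θ * τ := not_lt.1 ha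
      have h2 : dg b ≤ (univ.filter (fun c => Adj G τ b c ∧ T G a b c)).card + (U G a b).card := by
        refine (card_le_card ?_).trans (card_union_le _ _)
        intro c hc
        rw [mem_filter] at hc
        rw [mem_union, mem_filter, mem_U]
        by_cases h : T G a b c
        · exact Or.inl ⟨mem_univ _, hc.2, h⟩
        · exact Or.inr h
      have h4 : (dg b : ℝ) ≤ (univ.filter (fun c => Adj G τ b c ∧ T G a b c)).card +
          (U G a b).card := by exact_mod_cast h2
      have h5 : (dg b : ℝ) ≤ θ * τ + (U G a b).card := by linarith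
      rw [hf]
      refine exp_le_exp.2 ?_
      have h6 : y ≤ p * (θ * τ + (U G a b).card) / n := by
        rw [hy]
        gcongr
      have h7 : p * (θ * τ + (U G a b).card) / n = θ * K + p * (U G a b).card / n := by
        rw [hτ']
        field_simp
      linarith
    have hyexp : y * exp (-y) ≤ exp (-1) := by
      have h1 : y - 1 + 1 ≤ exp (y - 1) := add_one_le_exp _
      have h2 : exp (y - 1) * exp (-y) = exp (-1) := by
        rw [← exp_add]; congr 1; ring
      calc y * exp (-y) ≤ exp (y - 1) * exp (-y) :=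
            mul_le_mul_of_nonneg_right (by linarith) (exp_pos _).le
        _ = exp (-1) := h2
    calc ∑ a ∈ B.filter (fun a => Adj G τ a b), f a b
        ≤ ∑ a ∈ B.filter (fun a => Adj G τ a b), ((if bad a b then (1 : ℝ) else 0) +
            exp (-y + θ * K)) := by
          refine sum_le_sum fun a _ => ?_
          by_cases h : bad a b
          · rw [if_pos h]
            have := hf1 a b
            have h2 : 0 < exp (-y + θ * K) := exp_pos _
            linarith
          · rw [if_neg h, zero_add]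
            exact hgood a h
      _ = ((B.filter (fun a => Adj G τ a b ∧ bad a b)).card : ℝ) +
          ((B.filter (fun a => Adj G τ a b)).card : ℝ) * exp (-y + θ * K) := by
          rw [sum_add_distrib, sum_const, nsmul_eq_mul]
          congr 1
          rw [← sum_filter, sum_const, nsmul_eq_mul, mul_one, filter_filter]
      _ ≤ ((B.filter (fun a => Adj G τ a b ∧ bad a b)).card : ℝ) + R := by
          refine add_le_add le_rfl ?_
          have h1 : ((B.filter (fun a => Adj G τ a b)).card : ℝ) ≤ dg b := by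
            rw [hdg]
            have : B.filter (fun a => Adj G τ a b) ⊆ univ.filter (fun a => Adj G τ b a) := by
              intro a ha
              rw [mem_filter] at ha ⊢
              exact ⟨mem_univ _, (Adj_comm G τ _ _).1 ha.2⟩
            exact_mod_cast card_le_card this
          calc ((B.filter (fun a => Adj G τ a b)).card : ℝ) * exp (-y + θ * K)
              ≤ dg b * exp (-y + θ * K) := mul_le_mul_of_nonneg_right h1 (exp_pos _).le
            _ = n / p * (y * exp (-y)) * exp (θ * K) := by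
                rw [exp_add, hy]
                field_simp
            _ ≤ n / p * exp (-1) * exp (θ * K) := by
                refine mul_le_mul_of_nonneg_right ?_ (exp_pos _).le
                exact mul_le_mul_of_nonneg_left hyexp (by positivity)
            _ = R := by
                rw [hR, exp_add]; ring
  have hmixsum : ∑ b, ∑ a ∈ B.filter (fun a => Adj G τ a b), f a b ≤
      B.card * (4 * τ / θ) + n * R := by
    calc ∑ b, ∑ a ∈ B.filter (fun a => Adj G τ a b), f a b
        ≤ ∑ b, (((B.filter (fun a => Adj G τ a b ∧ bad a b)).card : ℝ) + R) :=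
          sum_le_sum fun b _ => hmix b
      _ = (∑ b, ∑ a ∈ B, (if Adj G τ a b ∧ bad a b then (1 : ℝ) else 0)) + n * R := by
          rw [sum_add_distrib, sum_const, nsmul_eq_mul]
          congr 1
          refine sum_congr rfl fun b _ => ?_
          rw [← sum_filter, sum_const, nsmul_eq_mul, mul_one]
      _ = (∑ a ∈ B, ((univ.filter (fun b => Adj G τ a b ∧ bad a b)).card : ℝ)) + n * R := by
          rw [sum_comm]
          congr 1
          refine sum_congr rfl fun b _ => ?_
          rw [← sum_filter, sum_const, nsmul_eq_mul, mul_one]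
      _ ≤ (∑ a ∈ B, 4 * τ / θ) + n * R :=
          add_le_add (sum_le_sum hbadcount) le_rfl
      _ = B.card * (4 * τ / θ) + n * R := by rw [sum_const, nsmul_eq_mul]
  -- all pairs
  have hall : ∑ q ∈ (univ : Finset (V × V)).filter (fun q => Adj G τ q.1 q.2), f q.1 q.2 ≤
      ((EW G τ S).card : ℝ) + (EW G τ B).card +
      2 * ∑ b, ∑ a ∈ B.filter (fun a => Adj G τ a b), f a b := by
    have hSB : ∀ v : V, v ∉ B → v ∈ S := by
      intro v hv
      rw [hB, mem_filter] at hv
      rw [hS, mem_filter]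
      exact ⟨mem_univ _, fun h => hv ⟨mem_univ _, h⟩⟩
    have e1 : ((EW G τ S).card : ℝ) = ∑ q : V × V,
        (if q.1 ∈ S ∧ q.2 ∈ S ∧ Adj G τ q.1 q.2 then (1 : ℝ) else 0) := by
      rw [← sum_filter, sum_const, nsmul_eq_mul, mul_one]
      congr 2
      ext q
      simp [EW, and_assoc]
    have e2 : ((EW G τ B).card : ℝ) = ∑ q : V × V,
        (if q.1 ∈ B ∧ q.2 ∈ B ∧ Adj G τ q.1 q.2 then (1 : ℝ) else 0) := by
      rw [← sum_filter, sum_const, nsmul_eq_mul, mul_one]
      congr 2
      ext q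
      simp [EW, and_assoc]
    have e3 : ∑ b, ∑ a ∈ B.filter (fun a => Adj G τ a b), f a b = ∑ q : V × V,
        (if q.1 ∈ B ∧ Adj G τ q.1 q.2 then f q.1 q.2 else 0) := by
      rw [Fintype.sum_prod_type_right]
      refine sum_congr rfl fun b _ => ?_
      rw [sum_filter, ← sum_filter_add_sum_filter_not univ (fun a => a ∈ B)]
      have h1 : ∑ a ∈ univ.filter (fun a => ¬ a ∈ B),
          (if a ∈ B ∧ Adj G τ a b then f a b else 0) = 0 := by
        refine sum_eq_zero fun a ha => ?_
        rw [mem_filter] at ha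
        rw [if_neg fun h => ha.2 h.1]
      rw [h1, add_zero]
      have h2 : univ.filter (fun a => a ∈ B) = B := by ext a; simp
      rw [h2]
      refine sum_congr rfl fun a ha => ?_
      simp only [ha, true_and]
    have e4 : ∑ b, ∑ a ∈ B.filter (fun a => Adj G τ a b), f a b = ∑ q : V × V,
        (if q.2 ∈ B ∧ Adj G τ q.1 q.2 then f q.1 q.2 else 0) := by
      rw [e3]
      refine Fintype.sum_equiv (Equiv.prodComm V V) _ _ fun q => ?_
      obtain ⟨a, b⟩ := q
      show (if a ∈ B ∧ Adj G τ a b then f a b else 0) = (if a ∈ B ∧ Adj G τ b a then f b a else 0)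
      by_cases h : a ∈ B ∧ Adj G τ a b
      · rw [if_pos h, if_pos (show a ∈ B ∧ Adj G τ b a from ⟨h.1, (Adj_comm G τ a b).1 h.2⟩),
          hfc b a]
      · rw [if_neg h, if_neg (show ¬ (a ∈ B ∧ Adj G τ b a) from
          fun h' => h ⟨h'.1, (Adj_comm G τ b a).1 h'.2⟩)]
    rw [two_mul]
    nth_rewrite 1 [e3]
    rw [e4, e1, e2, sum_filter, ← sum_add_distrib, ← sum_add_distrib, ← sum_add_distrib]
    refine sum_le_sum fun q _ => ?_
    by_cases h : Adj G τ q.1 q.2
    · by_cases h1 : q.1 ∈ B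
      · rw [if_pos h, if_pos (show q.1 ∈ B ∧ Adj G τ q.1 q.2 from ⟨h1, h⟩)]
        have a1 : (0 : ℝ) ≤ (if q.1 ∈ S ∧ q.2 ∈ S ∧ Adj G τ q.1 q.2 then (1 : ℝ) else 0) := by
          positivity
        have a2 : (0 : ℝ) ≤ (if q.1 ∈ B ∧ q.2 ∈ B ∧ Adj G τ q.1 q.2 then (1 : ℝ) else 0) := by
          positivity
        have a3 : (0 : ℝ) ≤ (if q.2 ∈ B ∧ Adj G τ q.1 q.2 then f q.1 q.2 else 0) := by
          split_ifs
          · exact hf0 _ _
          · exact le_rfl
        linarith
      · by_cases h2 : q.2 ∈ B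
        · rw [if_pos h, if_pos (show q.2 ∈ B ∧ Adj G τ q.1 q.2 from ⟨h2, h⟩)]
          have a1 : (0 : ℝ) ≤ (if q.1 ∈ S ∧ q.2 ∈ S ∧ Adj G τ q.1 q.2 then (1 : ℝ) else 0) := by
            positivity
          have a2 : (0 : ℝ) ≤ (if q.1 ∈ B ∧ q.2 ∈ B ∧ Adj G τ q.1 q.2 then (1 : ℝ) else 0) := by
            positivity
          have a3 : (0 : ℝ) ≤ (if q.1 ∈ B ∧ Adj G τ q.1 q.2 then f q.1 q.2 else 0) := by
            split_ifs
            · exact hf0 _ _
            · exact le_rfl
          linarith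
        · rw [if_pos h, if_pos (show q.1 ∈ S ∧ q.2 ∈ S ∧ Adj G τ q.1 q.2 from
            ⟨hSB _ h1, hSB _ h2, h⟩)]
          have a1 := hf1 q.1 q.2
          have a2 : (0 : ℝ) ≤ (if q.1 ∈ B ∧ q.2 ∈ B ∧ Adj G τ q.1 q.2 then (1 : ℝ) else 0) := by
            positivity
          have a3 : (0 : ℝ) ≤ (if q.1 ∈ B ∧ Adj G τ q.1 q.2 then f q.1 q.2 else 0) := by
            split_ifs
            · exact hf0 _ _
            · exact le_rfl
          have a4 : (0 : ℝ) ≤ (if q.2 ∈ B ∧ Adj G τ q.1 q.2 then f q.1 q.2 else 0) := by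
            split_ifs
            · exact hf0 _ _
            · exact le_rfl
          linarith
    · simp only [h, and_false, if_false]
      norm_num
  -- arithmetic
  have hBn : (B.card : ℝ) ≤ 4 * n / M := by
    rw [le_div_iff₀ hM0]; exact hBcard
  refine hall.trans ?_
  have g1 : ((EW G τ B).card : ℝ) ≤ 4 * τ * (4 * n / M) :=
    hBB.trans (mul_le_mul_of_nonneg_left hBn (by positivity))
  have g2 : (B.card : ℝ) * (4 * τ / θ) ≤ (4 * n / M) * (4 * τ / θ) :=
    mul_le_mul_of_nonneg_right hBn (by positivity)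
  have g3 : ((EW G τ S).card : ℝ) + (EW G τ B).card +
      2 * ∑ b, ∑ a ∈ B.filter (fun a => Adj G τ a b), f a b ≤
      4 * τ * (M * τ) + 4 * τ * (4 * n / M) + 2 * ((4 * n / M) * (4 * τ / θ) + n * R) := by
    linarith
  refine g3.trans (le_of_eq ?_)
  rw [hR, hτ']
  field_simp
  ring

end

end Pool.Agent.Helper319.LC
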