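import Pool.Agent.Helper319.LargeCodeg2

/-!
# Pairs of large codegree in `K_4^3`-free 3-graphs: powers of the codegrees
-/

set_option autoImplicit false
set_option linter.unusedSectionVars false
open Finset Real

namespace Pool.Agent.Helper319.LC

variable {V : Type*} [Fintype V] [DecidableEq V]

/-- the number of edges which contain `P` -/
def cdg (G : Finset (Finset V)) (P : Finset V) : ℕ := (G.filter (P ⊆ ·)).card

theorem cdg_eq {G : Finset (Finset V)} (h3 : ∀ e ∈ G, e.card = 3) {a b : V} (hab : a ≠ b) :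
    cdg G {a, b} = (univ.filter (fun c => T G a b c)).card := by
  unfold cdg
  symm
  refine card_bij (fun c _ => ({a, b, c} : Finset V)) ?_ ?_ ?_
  · intro c hc
    rw [mem_filter] at hc ⊢
    refine ⟨hc.2, ?_⟩
    intro z hz
    simp only [mem_insert, mem_singleton] at hz ⊢
    tauto
  · intro c hc c' hc' h
    rw [mem_filter] at hc hc'
    have hd := T_ne h3 hc.2
    have hm : c ∈ ({a, b, c'} : Finset V) := by rw [← h]; simp
    simp only [mem_insert, mem_singleton] at hm
    rcases hm with hm | hm | hm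
    · exact absurd hm hd.2.1.symm
    · exact absurd hm hd.2.2.symm
    · exact hm
  · intro s hs
    rw [mem_filter] at hs
    obtain ⟨hs, hsub⟩ := hs
    have h1 : (s \ {a, b}).card = 1 := by
      rw [card_sdiff_of_subset hsub, h3 s hs, card_pair hab]
    obtain ⟨c, hc⟩ := Finset.card_eq_one.mp h1
    have h2 : ({a, b, c} : Finset V) = s := by
      have h4 : s = {a, b} ∪ (s \ {a, b}) := (union_sdiff_of_subset hsub).symm
      rw [h4, hc]
      ext z
      simp only [mem_insert, mem_singleton, mem_union]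
      tauto
    refine ⟨c, mem_filter.mpr ⟨mem_univ _, ?_⟩, h2⟩
    unfold T
    rw [h2]
    exact hs

theorem cdg_add {G : Finset (Finset V)} (h3 : ∀ e ∈ G, e.card = 3) {a b : V} (hab : a ≠ b) :
    (cdg G {a, b} : ℝ) = Fintype.card V - (U G a b).card := by
  have h1 : (univ.filter (fun c => T G a b c)).card + (U G a b).card = Fintype.card V := by
    have := card_filter_add_card_filter_not (s := (univ : Finset V)) (fun c => T G a b c)
    rw [card_univ] at this
    exact this
  rw [cdg_eq h3 hab]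
  have h2 : ((univ.filter (fun c => T G a b c)).card : ℝ) + (U G a b).card = Fintype.card V := by
    exact_mod_cast h1
  linarith

theorem sum_pairs (g : Finset V → ℝ) :
    2 * ∑ P ∈ (univ : Finset V).powersetCard 2, g P =
      ∑ q ∈ (univ : Finset V).offDiag, g {q.1, q.2} := by
  rw [← sum_fiberwise_of_maps_to (s := (univ : Finset V).offDiag)
    (t := (univ : Finset V).powersetCard 2) (g := fun q => ({q.1, q.2} : Finset V)), mul_sum]
  · refine sum_congr rfl fun P hP => ?_
    rw [mem_powersetCard] at hP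
    obtain ⟨x, y, hxy, rfl⟩ := card_eq_two.1 hP.2
    have h1 : (univ : Finset V).offDiag.filter (fun q => ({q.1, q.2} : Finset V) = {x, y}) =
        {(x, y), (y, x)} := by
      ext ⟨a, b⟩
      simp only [mem_filter, mem_offDiag, mem_univ, true_and, mem_insert, mem_singleton,
        Prod.mk.injEq]
      constructor
      · rintro ⟨hab, h⟩
        have ha : a ∈ ({x, y} : Finset V) := by rw [← h]; simp
        have hb : b ∈ ({x, y} : Finset V) := by rw [← h]; simp
        simp only [mem_insert, mem_singleton] at ha hb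
        rcases ha with rfl | rfl <;> rcases hb with rfl | rfl
        · exact absurd rfl hab
        · exact Or.inl ⟨rfl, rfl⟩
        · exact Or.inr ⟨rfl, rfl⟩
        · exact absurd rfl hab
      · rintro (⟨rfl, rfl⟩ | ⟨rfl, rfl⟩)
        · exact ⟨hxy, rfl⟩
        · exact ⟨hxy.symm, pair_comm _ _⟩
    rw [h1, sum_pair (by intro h; exact hxy (Prod.mk.inj h).1)]
    rw [pair_comm y x]
    ring
  · intro q hq
    rw [mem_offDiag] at hq
    rw [mem_powersetCard]
    exact ⟨subset_univ _, card_pair hq.2.2⟩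

theorem sum_le_exp {G : Finset (Finset V)} (h3 : ∀ e ∈ G, e.card = 3) {p : ℝ} (hp : 0 < p)
    (hn : 0 < Fintype.card V) :
    2 * ∑ P ∈ (univ : Finset V).powersetCard 2, (cdg G P : ℝ) ^ p ≤
      (Fintype.card V : ℝ) ^ p *
        ∑ q : V × V, exp (-(p * (U G q.1 q.2).card / Fintype.card V)) := by
  set n : ℝ := (Fintype.card V : ℝ) with hn'
  have hn0 : 0 < n := by rw [hn']; exact_mod_cast hn
  rw [sum_pairs, mul_sum]
  calc ∑ q ∈ (univ : Finset V).offDiag, (cdg G {q.1, q.2} : ℝ) ^ p
      ≤ ∑ q ∈ (univ : Finset V).offDiag, n ^ p * exp (-(p * (U G q.1 q.2).card / n)) := by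
        refine sum_le_sum fun q hq => ?_
        rw [mem_offDiag] at hq
        rw [cdg_add h3 hq.2.2]
        set u : ℝ := ((U G q.1 q.2).card : ℝ) with hu
        have hu1 : u ≤ n := by
          rw [hu, hn']
          exact_mod_cast card_le_univ _
        have h1 : n - u ≤ n * exp (-(u / n)) := by
          have h2 : -(u / n) + 1 ≤ exp (-(u / n)) := add_one_le_exp _
          calc n - u = n * (-(u / n) + 1) := by field_simp; ring
            _ ≤ n * exp (-(u / n)) := mul_le_mul_of_nonneg_left h2 hn0.le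
        calc (n - u) ^ p ≤ (n * exp (-(u / n))) ^ p :=
              rpow_le_rpow (by linarith) h1 hp.le
          _ = n ^ p * exp (-(p * u / n)) := by
              rw [mul_rpow hn0.le (exp_pos _).le, ← exp_mul]
              congr 2
              ring
    _ ≤ ∑ q : V × V, n ^ p * exp (-(p * (U G q.1 q.2).card / n)) :=
        sum_le_sum_of_subset_of_nonneg (subset_univ _) fun _ _ _ => by positivity

/-- the upper bound -/
theorem upper_params {G : Finset (Finset V)} (h3 : ∀ e ∈ G, e.card = 3)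
    (hF : ∀ S : Finset V, S.card = 4 → ∃ s ⊆ S, s.card = 3 ∧ s ∉ G)
    {p θ M : ℝ} (hp : 0 < p) (hθ : 0 < θ) (hM : 4 ≤ M) (hn : 0 < Fintype.card V) {K : ℕ}
    (hK : 1 ≤ K) :
    ∑ P ∈ (univ : Finset V).powersetCard 2, (cdg G P : ℝ) ^ p ≤
      (Fintype.card V : ℝ) ^ (p + 2) / p * (12 * exp (-(K : ℝ) / 2) +
        2 * M * K ^ 2 / p + (8 * K + 16 * K / θ) / M + exp (-1 + θ * K)) := by
  have hn0 : (0 : ℝ) < Fintype.card V := by exact_mod_cast hn
  have h1 := sum_le_exp h3 hp hn
  have h2 := tail_sum h3 hF hp hn K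
  have h4 := near_sum h3 hF hp hθ hM hn hK
  rw [← sum_filter_add_sum_filter_not univ (fun q : V × V =>
    Adj G (K * Fintype.card V / p) q.1 q.2)] at h1
  have h5 : (Fintype.card V : ℝ) ^ (p + 2) = (Fintype.card V : ℝ) ^ p * (Fintype.card V : ℝ) ^ 2 := by
    rw [rpow_add hn0]
    norm_num
  rw [h5]
  have h6 : (0 : ℝ) < (Fintype.card V : ℝ) ^ p := rpow_pos_of_pos hn0 _
  have h7 := mul_le_mul_of_nonneg_left (add_le_add h4 h2) h6.le
  have h8 := h1.trans h7
  have hM0 : 0 < M := by linarith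
  have h9 : (Fintype.card V : ℝ) ^ p * (Fintype.card V : ℝ) ^ 2 / p * (12 * exp (-(K : ℝ) / 2) +
        2 * M * K ^ 2 / p + (8 * K + 16 * K / θ) / M + exp (-1 + θ * K)) =
      ((Fintype.card V : ℝ) ^ p * ((Fintype.card V : ℝ) ^ 2 / p *
        (4 * M * K ^ 2 / p + 16 * K / M + 32 * K / (θ * M) + 2 * exp (-1 + θ * K)) +
        (Fintype.card V : ℝ) ^ 2 / p * (24 * exp (-(K : ℝ) / 2)))) / 2 := by
    field_simp
    ring
  rw [h9]
  linarith

/-- the upper bound for the powers of the codegrees -/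
theorem upper {η : ℝ} (hη : 0 < η) : ∃ p₀ : ℝ, 1 ≤ p₀ ∧ ∀ p : ℝ, p₀ ≤ p → ∀ (n : ℕ)
    (G : Finset (Finset (Fin n))), (∀ e ∈ G, e.card = 3) →
    (∀ S : Finset (Fin n), S.card = 4 → ∃ s ⊆ S, s.card = 3 ∧ s ∉ G) →
    ∑ P ∈ (univ : Finset (Fin n)).powersetCard 2, (cdg G P : ℝ) ^ p ≤
      (1 + η) / (exp 1 * p) * (n : ℝ) ^ (p + 2) := by
  have he : 0 < exp (1 : ℝ) := exp_pos _
  obtain ⟨K0, hK0⟩ := exists_nat_ge (2 * log (48 * exp 1 / η))
  set K : ℕ := K0 + 1 with hK
  have hKr : (K : ℝ) = K0 + 1 := by rw [hK]; push_cast; ring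
  have hKpos : (0 : ℝ) < K := by rw [hKr]; positivity
  have a1 : 12 * exp (-(K : ℝ) / 2) ≤ η / (4 * exp 1) := by
    have h1 : exp (-(K : ℝ) / 2) ≤ exp (-log (48 * exp 1 / η)) := by
      refine exp_le_exp.2 ?_
      rw [hKr]; linarith
    have h2 : exp (-log (48 * exp 1 / η)) = η / (48 * exp 1) := by
      rw [exp_neg, exp_log (by positivity), inv_div]
    rw [h2] at h1
    calc 12 * exp (-(K : ℝ) / 2) ≤ 12 * (η / (48 * exp 1)) := by linarith
      _ = η / (4 * exp 1) := by field_simp; norm_num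
  set θ : ℝ := log (1 + η / 4) / K with hθ'
  have hlog : 0 < log (1 + η / 4) := log_pos (by linarith)
  have hθ : 0 < θ := by rw [hθ']; positivity
  have a2 : exp (-1 + θ * K) = (1 + η / 4) / exp 1 := by
    have h1 : θ * K = log (1 + η / 4) := by rw [hθ']; field_simp
    rw [h1, exp_add, exp_log (by positivity), exp_neg]
    field_simp
  set M : ℝ := max 4 ((8 * K + 16 * K / θ) * (4 * exp 1) / η) with hM'
  have hM : 4 ≤ M := le_max_left _ _
  have hM0 : 0 < M := by linarith
  have a3 : (8 * K + 16 * K / θ) / M ≤ η / (4 * exp 1) := by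
    have h1 : (8 * K + 16 * K / θ) * (4 * exp 1) / η ≤ M := le_max_right _ _
    rw [div_le_iff₀ hη] at h1
    rw [div_le_div_iff₀ hM0 (by positivity)]
    linarith
  refine ⟨max 1 (8 * exp 1 * M * K ^ 2 / η), le_max_left _ _, ?_⟩
  intro p hp n G h3 hF
  have hp1 : 1 ≤ p := (le_max_left _ _).trans hp
  have hp0 : 0 < p := by linarith
  rcases Nat.eq_zero_or_pos n with hn | hn
  · subst hn
    have h1 : (univ : Finset (Fin 0)).powersetCard 2 = ∅ := by
      rw [powersetCard_eq_empty]
      simp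
    rw [h1, sum_empty]
    positivity
  have a4 : 2 * M * K ^ 2 / p ≤ η / (4 * exp 1) := by
    have h1 : 8 * exp 1 * M * K ^ 2 / η ≤ p := (le_max_right _ _).trans hp
    rw [div_le_iff₀ hη] at h1
    rw [div_le_div_iff₀ hp0 (by positivity)]
    linarith
  have h1 := upper_params (V := Fin n) h3 hF hp0 hθ hM (by simpa using hn) (K := K) (by omega)
  rw [Fintype.card_fin, a2] at h1
  refine h1.trans ?_
  have hnp : (0 : ℝ) ≤ (n : ℝ) ^ (p + 2) / p := by positivity
  calc (n : ℝ) ^ (p + 2) / p * (12 * exp (-(K : ℝ) / 2) + 2 * M * K ^ 2 / p +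
        (8 * K + 16 * K / θ) / M + (1 + η / 4) / exp 1)
      ≤ (n : ℝ) ^ (p + 2) / p * (η / (4 * exp 1) + η / (4 * exp 1) + η / (4 * exp 1) +
        (1 + η / 4) / exp 1) := by
        refine mul_le_mul_of_nonneg_left ?_ hnp
        linarith
    _ = (1 + η) / (exp 1 * p) * (n : ℝ) ^ (p + 2) := by
        field_simp
        ring

end Pool.Agent.Helper319.LC
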