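import Pool.Agent.Helper319.LargeCodeg3

/-!
# Pairs of large codegree in `K_4^3`-free 3-graphs: the number of pairs, and the construction
-/

set_option autoImplicit false
set_option linter.unusedSectionVars false
open Finset Real

namespace Pool.Agent.Helper319.LC

/-- the number of the pairs of large codegree -/
theorem upper_count {η : ℝ} (hη : 0 < η) : ∃ ε₀ : ℝ, 0 < ε₀ ∧ ∀ ε : ℝ, 0 < ε → ε ≤ ε₀ → ∀ (n : ℕ)
    (G : Finset (Finset (Fin n))), (∀ e ∈ G, e.card = 3) →
    (∀ S : Finset (Fin n), S.card = 4 → ∃ s ⊆ S, s.card = 3 ∧ s ∉ G) →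
    ((((univ : Finset (Fin n)).powersetCard 2).filter
      (fun P => (1 - ε) * (n : ℝ) ≤ cdg G P)).card : ℝ) ≤ (1 + η) * ε * (n : ℝ) ^ 2 := by
  obtain ⟨p₀, hp1, hp⟩ := upper (half_pos hη)
  refine ⟨min (min (1 / 2) (1 / p₀)) (η / (4 * (1 + η))), by positivity, ?_⟩
  intro ε hε hεle n G h3 hF
  have hε1 : ε ≤ 1 / 2 := hεle.trans ((min_le_left _ _).trans (min_le_left _ _))
  have hε2 : ε ≤ 1 / p₀ := hεle.trans ((min_le_left _ _).trans (min_le_right _ _))
  have hε3 : ε ≤ η / (4 * (1 + η)) := hεle.trans (min_le_right _ _)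
  have hp₀ : 0 < p₀ := by linarith
  set p : ℝ := 1 / ε with hpdef
  have hpp : p₀ ≤ p := by
    rw [hpdef, le_div_iff₀ hε]
    rw [le_div_iff₀ hp₀] at hε2
    linarith
  have hp0 : 0 < p := by linarith
  rcases Nat.eq_zero_or_pos n with hn | hn
  · subst hn
    have h1 : (univ : Finset (Fin 0)).powersetCard 2 = ∅ := by
      rw [powersetCard_eq_empty]
      simp
    rw [h1, filter_empty, card_empty]
    push_cast
    positivity
  have hn0 : (0 : ℝ) < n := by exact_mod_cast hn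
  have hmain := hp p hpp n G h3 hF
  set F := ((univ : Finset (Fin n)).powersetCard 2).filter
      (fun P => (1 - ε) * (n : ℝ) ≤ cdg G P) with hFdef
  have h1e : 0 < 1 - ε := by linarith
  have hlow : (F.card : ℝ) * ((1 - ε) * n) ^ p ≤
      ∑ P ∈ (univ : Finset (Fin n)).powersetCard 2, (cdg G P : ℝ) ^ p := by
    calc (F.card : ℝ) * ((1 - ε) * n) ^ p = ∑ P ∈ F, ((1 - ε) * n) ^ p := by
          rw [sum_const, nsmul_eq_mul]
      _ ≤ ∑ P ∈ F, (cdg G P : ℝ) ^ p := by
          refine sum_le_sum fun P hP => ?_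
          rw [hFdef, mem_filter] at hP
          exact rpow_le_rpow (by positivity) hP.2 hp0.le
      _ ≤ ∑ P ∈ (univ : Finset (Fin n)).powersetCard 2, (cdg G P : ℝ) ^ p :=
          sum_le_sum_of_subset_of_nonneg (filter_subset _ _) fun _ _ _ => by positivity
  have hpow : exp (-1) * (1 - 2 * ε) ≤ (1 - ε) ^ p := by
    rw [rpow_def_of_pos h1e]
    have h1 : 1 - (1 - ε)⁻¹ ≤ log (1 - ε) := one_sub_inv_le_log_of_pos h1e
    have h2 : -1 - 2 * ε ≤ log (1 - ε) * p := by
      rw [hpdef, mul_one_div, le_div_iff₀ hε]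
      refine le_trans ?_ h1
      have h4 : 1 - (1 - ε)⁻¹ = -ε / (1 - ε) := by field_simp; ring
      rw [h4, le_div_iff₀ h1e]
      have h5 : 0 ≤ ε * ε * (1 - 2 * ε) := mul_nonneg (mul_self_nonneg _) (by linarith)
      nlinarith
    calc exp (-1) * (1 - 2 * ε) ≤ exp (-1) * exp (-(2 * ε)) := by
          refine mul_le_mul_of_nonneg_left ?_ (exp_pos _).le
          have := add_one_le_exp (-(2 * ε))
          linarith
      _ = exp (-1 - 2 * ε) := by rw [← exp_add, ← sub_eq_add_neg]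
      _ ≤ exp (log (1 - ε) * p) := exp_le_exp.2 h2
  have h5 : (n : ℝ) ^ (p + 2) = (n : ℝ) ^ p * (n : ℝ) ^ 2 := by
    rw [rpow_add hn0]
    norm_num
  have hnp : (0 : ℝ) < (n : ℝ) ^ p := rpow_pos_of_pos hn0 _
  have h6 : (F.card : ℝ) * ((1 - ε) ^ p * (n : ℝ) ^ p) ≤
      (1 + η / 2) / (exp 1 * p) * ((n : ℝ) ^ p * (n : ℝ) ^ 2) := by
    have := hlow.trans hmain
    rw [mul_rpow h1e.le hn0.le, h5] at this
    exact this
  have h7 : (F.card : ℝ) * (1 - ε) ^ p ≤ (1 + η / 2) / (exp 1 * p) * (n : ℝ) ^ 2 := by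
    have h8 : ((F.card : ℝ) * (1 - ε) ^ p) * (n : ℝ) ^ p ≤
        ((1 + η / 2) / (exp 1 * p) * (n : ℝ) ^ 2) * (n : ℝ) ^ p := by linarith
    exact le_of_mul_le_mul_right h8 hnp
  have h9 : (F.card : ℝ) * (exp (-1) * (1 - 2 * ε)) ≤ (1 + η / 2) / (exp 1 * p) * (n : ℝ) ^ 2 :=
    (mul_le_mul_of_nonneg_left hpow (Nat.cast_nonneg _)).trans h7
  have h10 : (1 + η / 2) / (exp 1 * p) * (n : ℝ) ^ 2 = exp (-1) * ((1 + η / 2) * ε * (n : ℝ) ^ 2) := by
    rw [hpdef, exp_neg]
    field_simp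
  rw [h10] at h9
  have h11 : (F.card : ℝ) * (1 - 2 * ε) ≤ (1 + η / 2) * ε * (n : ℝ) ^ 2 := by
    have h12 : exp (-1) * ((F.card : ℝ) * (1 - 2 * ε)) ≤ exp (-1) * ((1 + η / 2) * ε * (n : ℝ) ^ 2) := by
      linarith
    exact le_of_mul_le_mul_left h12 (exp_pos _)
  have h13 : 1 + η / 2 ≤ (1 + η) * (1 - 2 * ε) := by
    rw [le_div_iff₀ (by positivity)] at hε3
    nlinarith
  have hη4 : η / (4 * (1 + η)) < 1 / 2 := by
    rw [div_lt_div_iff₀ (by positivity) (by norm_num)]
    linarith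
  have h14 : 0 < 1 - 2 * ε := by linarith
  have h15 : (F.card : ℝ) * (1 - 2 * ε) ≤ ((1 + η) * ε * (n : ℝ) ^ 2) * (1 - 2 * ε) := by
    refine h11.trans ?_
    have h16 : 0 ≤ ε * (n : ℝ) ^ 2 := by positivity
    nlinarith
  exact le_of_mul_le_mul_right h15 h14

/-- the triples with exactly one vertex among the first `m` -/
def con (n m : ℕ) : Finset (Finset (Fin n)) :=
  ((univ : Finset (Fin n)).powersetCard 3).filter
    (fun s => (s.filter (fun i : Fin n => (i : ℕ) < m)).card = 1)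

theorem con_card {n m : ℕ} : ∀ e ∈ con n m, e.card = 3 := by
  intro e he
  rw [con, mem_filter, mem_powersetCard] at he
  exact he.1.2

theorem con_free {n m : ℕ} :
    ∀ S : Finset (Fin n), S.card = 4 → ∃ s ⊆ S, s.card = 3 ∧ s ∉ con n m := by
  intro S hS
  by_contra h
  push Not at h
  have h1 : ∀ x ∈ S, ((S.erase x).filter (fun i : Fin n => (i : ℕ) < m)).card = 1 := by
    intro x hx
    have h2 := h (S.erase x) (erase_subset _ _) (by rw [card_erase_of_mem hx, hS])
    rw [con, mem_filter] at h2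
    exact h2.2
  by_cases hA : ∃ x ∈ S, (x : ℕ) < m
  · obtain ⟨x, hx, hxm⟩ := hA
    have h2 := h1 x hx
    rw [filter_erase, card_erase_of_mem (mem_filter.2 ⟨hx, hxm⟩)] at h2
    have h4 : (S.filter (fun i : Fin n => (i : ℕ) < m)).card = 2 := by omega
    have h5 : ∃ y ∈ S, ¬ (y : ℕ) < m := by
      by_contra h6
      push Not at h6
      rw [filter_true_of_mem h6, hS] at h4
      omega
    obtain ⟨y, hy, hym⟩ := h5
    have h7 := h1 y hy
    have h9 : y ∉ S.filter (fun i : Fin n => (i : ℕ) < m) := fun h8 => hym (mem_filter.1 h8).2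
    rw [filter_erase, erase_eq_of_notMem h9, h4] at h7
    omega
  · push Not at hA
    have hne : S.Nonempty := by
      rw [← card_pos]; omega
    obtain ⟨x, hx⟩ := hne
    have h2 := h1 x hx
    have h4 : (S.erase x).filter (fun i : Fin n => (i : ℕ) < m) = ∅ := by
      rw [filter_eq_empty_iff]
      intro y hy
      exact not_lt.2 (hA y (mem_of_mem_erase hy))
    rw [h4, card_empty] at h2
    omega

theorem con_cdg {n m : ℕ} {a b : Fin n} (ha : (a : ℕ) < m) (hb : ¬ (b : ℕ) < m) (hm : m ≤ n) :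
    n - m - 1 ≤ cdg (con n m) {a, b} := by
  have hab : a ≠ b := by rintro rfl; exact hb ha
  rw [cdg_eq con_card hab]
  have hcard : (univ.filter (fun c : Fin n => ¬ (c : ℕ) < m)).card = n - m := by
    have h1 := card_filter_add_card_filter_not (s := (univ : Finset (Fin n))) (fun c : Fin n => (c : ℕ) < m)
    rw [card_univ, Fintype.card_fin] at h1
    have h2 : (univ.filter (fun c : Fin n => (c : ℕ) < m)).card = m := by
      rw [Fin.card_filter_val_lt]
      omega
    omega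
  have h1 : ((univ.filter (fun c : Fin n => ¬ (c : ℕ) < m)).erase b).card = n - m - 1 := by
    have h9 : b ∈ univ.filter (fun c : Fin n => ¬ (c : ℕ) < m) := mem_filter.2 ⟨mem_univ _, hb⟩
    rw [card_erase_of_mem h9, hcard]
  rw [← h1]
  refine card_le_card fun c hc => ?_
  rw [mem_erase, mem_filter] at hc
  rw [mem_filter]
  refine ⟨mem_univ _, ?_⟩
  have hcm := hc.2.2
  have hac : a ≠ c := by rintro rfl; exact hcm ha
  unfold T
  rw [con, mem_filter, mem_powersetCard]
  refine ⟨⟨subset_univ _, ?_⟩, ?_⟩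
  · rw [card_insert_of_notMem (by simp [hab, hac]), card_pair (Ne.symm hc.1)]
  · rw [card_eq_one]
    refine ⟨a, ?_⟩
    ext z
    simp only [mem_filter, mem_insert, mem_singleton]
    constructor
    · rintro ⟨rfl | rfl | rfl, hz⟩
      · rfl
      · exact absurd hz hb
      · exact absurd hz hcm
    · rintro rfl
      exact ⟨Or.inl rfl, ha⟩

/-- there are many pairs of codegree at least `n - m - 1` in the construction -/
theorem con_pairs {n m : ℕ} (hm : m ≤ n) :
    m * (n - m) ≤ (((univ : Finset (Fin n)).powersetCard 2).filter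
      (fun P => n - m - 1 ≤ cdg (con n m) P)).card := by
  have hA : (univ.filter (fun c : Fin n => (c : ℕ) < m)).card = m := by
    rw [Fin.card_filter_val_lt]
    omega
  have hB : (univ.filter (fun c : Fin n => ¬ (c : ℕ) < m)).card = n - m := by
    have h1 := card_filter_add_card_filter_not (s := (univ : Finset (Fin n))) (fun c : Fin n => (c : ℕ) < m)
    rw [card_univ, Fintype.card_fin] at h1
    omega
  have h1 : ((univ.filter (fun c : Fin n => (c : ℕ) < m)) ×ˢ
      (univ.filter (fun c : Fin n => ¬ (c : ℕ) < m))).card = m * (n - m) := by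
    rw [card_product, hA, hB]
  rw [← h1]
  refine card_le_card_of_injOn (fun q => ({q.1, q.2} : Finset (Fin n))) ?_ ?_
  · intro q hq
    rw [mem_coe, mem_product, mem_filter, mem_filter] at hq
    have hne : q.1 ≠ q.2 := by
      intro h
      rw [h] at hq
      exact hq.2.2 hq.1.2
    rw [mem_coe, mem_filter, mem_powersetCard]
    exact ⟨⟨subset_univ _, card_pair hne⟩, con_cdg hq.1.2 hq.2.2 hm⟩
  · rintro ⟨a, b⟩ hq ⟨c, d⟩ hr h
    rw [mem_coe, mem_product, mem_filter, mem_filter] at hq hr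
    simp only at hq hr h
    have ha : a ∈ ({c, d} : Finset (Fin n)) := by rw [← h]; simp
    have hb : b ∈ ({c, d} : Finset (Fin n)) := by rw [← h]; simp
    simp only [mem_insert, mem_singleton] at ha hb
    have hac : a = c := by
      rcases ha with ha | ha
      · exact ha
      · exact absurd hq.1.2 (by rw [ha]; exact hr.2.2)
    have hbd : b = d := by
      rcases hb with hb | hb
      · exact absurd hr.1.2 (by rw [← hb]; exact hq.2.2)
      · exact hb
    rw [hac, hbd]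

/-- the lower bound for the number of pairs of large codegree -/
theorem lower_count {ε : ℝ} (hε : 0 < ε) (hε1 : ε < 1) (n : ℕ) : ∃ G : Finset (Finset (Fin n)),
    (∀ e ∈ G, e.card = 3) ∧ (∀ S : Finset (Fin n), S.card = 4 → ∃ s ⊆ S, s.card = 3 ∧ s ∉ G) ∧
    (1 - ε) * ε * (n : ℝ) ^ 2 - 2 * n ≤ ((((univ : Finset (Fin n)).powersetCard 2).filter
      (fun P => (1 - ε) * (n : ℝ) ≤ cdg G P)).card : ℝ) := by
  set m : ℕ := ⌊ε * n⌋₊ - 1 with hm
  refine ⟨con n m, con_card, con_free, ?_⟩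
  have hn0 : (0 : ℝ) ≤ n := Nat.cast_nonneg n
  rcases le_or_gt (ε * n) 1 with h | h
  · refine le_trans ?_ (Nat.cast_nonneg _)
    have h1 : (ε * n) * n ≤ 1 * n := mul_le_mul_of_nonneg_right h hn0
    have h2 : 0 ≤ (ε * n) * (ε * n) := mul_self_nonneg _
    nlinarith
  have hfl : 1 ≤ ⌊ε * n⌋₊ := Nat.le_floor (by exact_mod_cast h.le)
  have hm1 : (m : ℝ) + 1 ≤ ε * n := by
    have h1 : m + 1 = ⌊ε * n⌋₊ := by omega
    have h2 : ((m + 1 : ℕ) : ℝ) ≤ ε * n := by
      rw [h1]; exact Nat.floor_le (by positivity)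
    exact_mod_cast h2
  have hm2 : ε * n - 2 ≤ (m : ℝ) := by
    have h1 : m + 1 = ⌊ε * n⌋₊ := by omega
    have h2 : ε * n < ⌊ε * n⌋₊ + 1 := Nat.lt_floor_add_one _
    rw [← h1] at h2
    push_cast at h2
    linarith
  have hmn : m ≤ n := by
    have : (m : ℝ) ≤ n := by nlinarith
    exact_mod_cast this
  have h1 := con_pairs hmn
  have h2 : ((((univ : Finset (Fin n)).powersetCard 2).filter
      (fun P => n - m - 1 ≤ cdg (con n m) P)).card : ℝ) ≤
      ((((univ : Finset (Fin n)).powersetCard 2).filter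
      (fun P => (1 - ε) * (n : ℝ) ≤ cdg (con n m) P)).card : ℝ) := by
    have hle : (((univ : Finset (Fin n)).powersetCard 2).filter
      (fun P => n - m - 1 ≤ cdg (con n m) P)).card ≤
      (((univ : Finset (Fin n)).powersetCard 2).filter
      (fun P => (1 - ε) * (n : ℝ) ≤ cdg (con n m) P)).card := by
      refine card_le_card fun P hP => ?_
      rw [mem_filter] at hP ⊢
      refine ⟨hP.1, ?_⟩
      have h4 : (n : ℝ) - m - 1 ≤ cdg (con n m) P := by
        have h5 : n ≤ cdg (con n m) P + m + 1 := by omega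
        have h6 : (n : ℝ) ≤ cdg (con n m) P + m + 1 := by exact_mod_cast h5
        linarith
      linarith
    exact_mod_cast hle
  have h4 : ((m * (n - m) : ℕ) : ℝ) ≤ ((((univ : Finset (Fin n)).powersetCard 2).filter
      (fun P => n - m - 1 ≤ cdg (con n m) P)).card : ℝ) := by exact_mod_cast h1
  refine le_trans ?_ (h4.trans h2)
  rw [Nat.cast_mul, Nat.cast_sub hmn]
  have h5 : (1 - ε) * n ≤ (n : ℝ) - m := by linarith
  have h6 : (0 : ℝ) ≤ (1 - ε) * n := by
    have : 0 < 1 - ε := by linarith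
    positivity
  have hm0 : (0 : ℝ) ≤ m := Nat.cast_nonneg m
  calc (1 - ε) * ε * (n : ℝ) ^ 2 - 2 * n ≤ (ε * n - 2) * ((1 - ε) * n) := by nlinarith
    _ ≤ m * ((1 - ε) * n) := mul_le_mul_of_nonneg_right hm2 h6
    _ ≤ m * ((n : ℝ) - m) := mul_le_mul_of_nonneg_left h5 hm0

set_option maxHeartbeats 1000000 in
/-- the lower bound for the powers of the codegrees -/
theorem lower {η : ℝ} (hη : 0 < η) : ∃ p₀ : ℝ, 1 ≤ p₀ ∧ ∀ p : ℝ, p₀ ≤ p → ∀ n : ℕ, p ^ 2 ≤ n →
    ∃ G : Finset (Finset (Fin n)), (∀ e ∈ G, e.card = 3) ∧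
    (∀ S : Finset (Fin n), S.card = 4 → ∃ s ⊆ S, s.card = 3 ∧ s ∉ G) ∧
    (1 - η) / (exp 1 * p) * (n : ℝ) ^ (p + 2) ≤
      ∑ P ∈ (univ : Finset (Fin n)).powersetCard 2, (cdg G P : ℝ) ^ p := by
  refine ⟨max 4 (8 / η), le_trans (by norm_num) (le_max_left _ _), ?_⟩
  intro p hp n hpn
  have hp4 : 4 ≤ p := (le_max_left _ _).trans hp
  have hp8 : 8 / η ≤ p := (le_max_right _ _).trans hp
  have hp0 : 0 < p := by linarith
  have hn16 : (16 : ℝ) ≤ n := by nlinarith
  have hn0 : (0 : ℝ) < n := by linarith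
  set m : ℕ := ⌊(n : ℝ) / p⌋₊ with hm
  refine ⟨con n m, con_card, con_free, ?_⟩
  have hm1 : (m : ℝ) ≤ n / p := Nat.floor_le (by positivity)
  have hm2 : (n : ℝ) / p - 1 < m := by
    have := Nat.lt_floor_add_one ((n : ℝ) / p)
    linarith
  have hnp : (1 : ℝ) ≤ n / p ^ 2 := by
    rw [le_div_iff₀ (by positivity)]
    linarith
  have hmn : m ≤ n := by
    have h1 : (n : ℝ) / p ≤ n := div_le_self hn0.le (by linarith)
    have : (m : ℝ) ≤ n := by linarith
    exact_mod_cast this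
  have h1 := con_pairs hmn
  set u : ℝ := 1 / p + 1 / p ^ 2 with hu
  have hu0 : 0 < u := by positivity
  have hip : 1 / p ≤ 1 / 4 := one_div_le_one_div_of_le (by norm_num) hp4
  have hip0 : 0 < 1 / p := by positivity
  have hsq : 1 / p ^ 2 = (1 / p) * (1 / p) := by field_simp
  have hu1 : u ≤ 1 / 2 := by
    rw [hu, hsq]; nlinarith
  have hbase : (1 - u) * n ≤ ((n - m - 1 : ℕ) : ℝ) := by
    have h2 : (n : ℝ) - m - 1 ≤ ((n - m - 1 : ℕ) : ℝ) := by
      have h4 : n ≤ (n - m - 1) + m + 1 := by omega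
      have h5 : (n : ℝ) ≤ ((n - m - 1 : ℕ) : ℝ) + m + 1 := by exact_mod_cast h4
      linarith
    refine le_trans ?_ h2
    have h4 : (1 - u) * n = n - n / p - n / p ^ 2 := by rw [hu]; ring
    rw [h4]; linarith
  have hbase0 : 0 ≤ (1 - u) * n := by
    have : 0 < 1 - u := by linarith
    positivity
  -- the sum
  have hsum : ((m * (n - m) : ℕ) : ℝ) * ((1 - u) * n) ^ p ≤
      ∑ P ∈ (univ : Finset (Fin n)).powersetCard 2, (cdg (con n m) P : ℝ) ^ p := by
    calc ((m * (n - m) : ℕ) : ℝ) * ((1 - u) * n) ^ p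
        ≤ ((((univ : Finset (Fin n)).powersetCard 2).filter
            (fun P => n - m - 1 ≤ cdg (con n m) P)).card : ℝ) * ((1 - u) * n) ^ p := by
          refine mul_le_mul_of_nonneg_right (by exact_mod_cast h1) (by positivity)
      _ = ∑ P ∈ ((univ : Finset (Fin n)).powersetCard 2).filter
            (fun P => n - m - 1 ≤ cdg (con n m) P), ((1 - u) * n) ^ p := by
          rw [sum_const, nsmul_eq_mul]
      _ ≤ ∑ P ∈ ((univ : Finset (Fin n)).powersetCard 2).filter
            (fun P => n - m - 1 ≤ cdg (con n m) P), (cdg (con n m) P : ℝ) ^ p := by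
          refine sum_le_sum fun P hP => ?_
          rw [mem_filter] at hP
          refine rpow_le_rpow hbase0 (hbase.trans ?_) hp0.le
          exact_mod_cast hP.2
      _ ≤ ∑ P ∈ (univ : Finset (Fin n)).powersetCard 2, (cdg (con n m) P : ℝ) ^ p :=
          sum_le_sum_of_subset_of_nonneg (filter_subset _ _) fun _ _ _ => by positivity
  refine le_trans ?_ hsum
  rw [Nat.cast_mul, Nat.cast_sub hmn]
  have h1u : 0 < 1 - u := by linarith
  rw [mul_rpow h1u.le hn0.le]
  have h5 : (n : ℝ) ^ (p + 2) = (n : ℝ) ^ p * (n : ℝ) ^ 2 := by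
    rw [rpow_add hn0]
    norm_num
  rw [h5]
  have hnp0 : (0 : ℝ) < (n : ℝ) ^ p := rpow_pos_of_pos hn0 _
  -- the number of pairs
  have hcount : (n : ℝ) ^ 2 / p * ((1 - 1 / p) * (1 - 1 / p)) ≤ (m : ℝ) * ((n : ℝ) - m) := by
    have h2 : (n : ℝ) / p * (1 - 1 / p) ≤ m := by
      have h4 : (n : ℝ) / p * (1 - 1 / p) = n / p - n / p ^ 2 := by ring
      rw [h4]; linarith
    have h4 : (n : ℝ) * (1 - 1 / p) ≤ (n : ℝ) - m := by
      have h6 : (n : ℝ) * (1 - 1 / p) = n - n / p := by ring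
      rw [h6]; linarith
    have h6 : 0 ≤ (n : ℝ) * (1 - 1 / p) := by
      have : 0 < 1 - 1 / p := by linarith
      positivity
    calc (n : ℝ) ^ 2 / p * ((1 - 1 / p) * (1 - 1 / p)) =
          ((n : ℝ) / p * (1 - 1 / p)) * ((n : ℝ) * (1 - 1 / p)) := by ring
      _ ≤ m * ((n : ℝ) * (1 - 1 / p)) := mul_le_mul_of_nonneg_right h2 h6
      _ ≤ m * ((n : ℝ) - m) := mul_le_mul_of_nonneg_left h4 (Nat.cast_nonneg _)
  have hpow : exp (-1) * (1 - 6 / p) ≤ (1 - u) ^ p := by
    rw [rpow_def_of_pos h1u]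
    have h2 : 1 - (1 - u)⁻¹ ≤ log (1 - u) := one_sub_inv_le_log_of_pos h1u
    have h4 : -1 - 6 / p ≤ log (1 - u) * p := by
      have h6 : (1 - (1 - u)⁻¹) * p ≤ log (1 - u) * p := mul_le_mul_of_nonneg_right h2 hp0.le
      refine le_trans ?_ h6
      have h7 : (1 - (1 - u)⁻¹) * p = -(1 + 1 / p) / (1 - u) := by
        have h8 : u * p = 1 + 1 / p := by rw [hu]; field_simp
        have h9 : 1 - (1 - u)⁻¹ = -u / (1 - u) := by field_simp; ring
        rw [h9, div_mul_eq_mul_div, neg_mul, h8]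
      rw [h7, le_div_iff₀ h1u, hu, hsq]
      have h8 : 6 / p = 6 * (1 / p) := by ring
      rw [h8]
      nlinarith [mul_pos hip0 hip0, mul_nonneg hip0.le (sub_nonneg.2 hip),
        mul_nonneg (mul_pos hip0 hip0).le (sub_nonneg.2 hip)]
    calc exp (-1) * (1 - 6 / p) ≤ exp (-1) * exp (-(6 / p)) := by
          refine mul_le_mul_of_nonneg_left ?_ (exp_pos _).le
          have := add_one_le_exp (-(6 / p))
          linarith
      _ = exp (-1 - 6 / p) := by rw [← exp_add, ← sub_eq_add_neg]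
      _ ≤ exp (log (1 - u) * p) := exp_le_exp.2 h4
  have hfin : 1 - η ≤ (1 - 1 / p) * (1 - 1 / p) * (1 - 6 / p) := by
    have h2 : 8 * (1 / p) ≤ η := by
      rw [div_le_iff₀ hη] at hp8
      rw [mul_one_div, div_le_iff₀ hp0]
      linarith
    have h4 : 6 / p = 6 * (1 / p) := by ring
    rw [h4]
    nlinarith [mul_pos hip0 hip0, mul_nonneg (mul_pos hip0 hip0).le (sub_nonneg.2 hip)]
  have hip1 : 0 < 1 - 1 / p := by linarith
  clear_value u
  clear_value m
  by_cases h6p : 0 ≤ 1 - 6 / p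
  · have hX : (n : ℝ) ^ 2 / p * ((1 - 1 / p) * (1 - 1 / p)) * (exp (-1) * (1 - 6 / p)) ≤
        (m : ℝ) * ((n : ℝ) - m) * (1 - u) ^ p := by
      refine mul_le_mul hcount hpow (by positivity) ?_
      refine le_trans ?_ hcount
      have : 0 < 1 - 1 / p := by linarith
      positivity
    calc (1 - η) / (exp 1 * p) * ((n : ℝ) ^ p * (n : ℝ) ^ 2)
        = (n : ℝ) ^ p * ((n : ℝ) ^ 2 / p * exp (-1) * (1 - η)) := by
          rw [exp_neg]; field_simp
      _ ≤ (n : ℝ) ^ p * ((n : ℝ) ^ 2 / p * exp (-1) * ((1 - 1 / p) * (1 - 1 / p) * (1 - 6 / p))) := by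
          refine mul_le_mul_of_nonneg_left ?_ hnp0.le
          exact mul_le_mul_of_nonneg_left hfin (by positivity)
      _ = (n : ℝ) ^ p * ((n : ℝ) ^ 2 / p * ((1 - 1 / p) * (1 - 1 / p)) * (exp (-1) * (1 - 6 / p))) := by
          ring
      _ ≤ (n : ℝ) ^ p * ((m : ℝ) * ((n : ℝ) - m) * (1 - u) ^ p) :=
          mul_le_mul_of_nonneg_left hX hnp0.le
      _ = (m : ℝ) * ((n : ℝ) - m) * ((1 - u) ^ p * (n : ℝ) ^ p) := by ring
  · have h1η : 1 - η ≤ 0 := by
      push Not at h6p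
      have h2 : 0 ≤ (1 - 1 / p) * (1 - 1 / p) := mul_self_nonneg _
      nlinarith
    refine le_trans (b := 0) ?_ ?_
    · have h2 : (1 - η) / (exp 1 * p) ≤ 0 :=
        div_nonpos_of_nonpos_of_nonneg h1η (by positivity)
      exact mul_nonpos_of_nonpos_of_nonneg h2 (by positivity)
    · have h2 : 0 ≤ (n : ℝ) ^ 2 / p * ((1 - 1 / p) * (1 - 1 / p)) := by
        have := mul_self_nonneg (1 - 1 / p)
        positivity
      have h4 := h2.trans hcount
      have h6 : 0 ≤ (1 - u) ^ p * (n : ℝ) ^ p := by positivity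
      exact mul_nonneg h4 h6

end Pool.Agent.Helper319.LC
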